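import Pool.Agent.Y412.SI.Ende2

set_option autoImplicit false

/-! Project Y142-SI, task ENDE: the decomposition. -/

open Polynomial Module

namespace Pool.Agent.Y412.SI

section mod
variable {F R : Type} [Field F] [Ring R] [Algebra F R]

attribute [local instance] fin_sub fin_end

theorem sup_eq (M : Type) [AddCommGroup M] [Module F M]
    [Module R M] [IsScalarTower F R M] [FiniteDimensional F M] (K L : Submodule R M)
    (hd : Disjoint K L) (hr : finrank F M ≤ finrank F K + finrank F L) : K ⊔ L = ⊤ := by
  have h1 : (K.restrictScalars F) ⊔ (L.restrictScalars F) = ⊤ := by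
    apply Submodule.eq_top_of_disjoint
    · exact hr
    · rw [Submodule.disjoint_def] at hd ⊢
      exact fun v h1 h2 => hd v h1 h2
  rw [eq_top_iff]
  intro v _
  have h2 : v ∈ (K.restrictScalars F) ⊔ (L.restrictScalars F) := by rw [h1]; trivial
  obtain ⟨a, ha, b, hb, rfl⟩ := Submodule.mem_sup.1 h2
  exact Submodule.mem_sup.2 ⟨a, ha, b, hb, rfl⟩

theorem end_add (M : Type) [AddCommGroup M] [Module F M]
    [Module R M] [IsScalarTower F R M] [FiniteDimensional F M] (K L : Submodule R M)
    (hKL : K ⊔ L = ⊤) (hYK : ∀ (Y : Module.End R M), ∀ v ∈ K, Y v ∈ K)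
    (hYL : ∀ (Y : Module.End R M), ∀ v ∈ L, Y v ∈ L) :
    finrank F (Module.End R M) ≤ finrank F (Module.End R K) + finrank F (Module.End R L) := by
  rw [← Module.finrank_prod]
  let r : Module.End R M →ₗ[F] (Module.End R K × Module.End R L) :=
    { toFun := fun Y => (Y.restrict (hYK Y), Y.restrict (hYL Y))
      map_add' := fun _ _ => rfl
      map_smul' := fun _ _ => rfl }
  apply LinearMap.finrank_le_finrank_of_injective (f := r)
  rw [injective_iff_map_eq_zero]
  intro Y hY
  apply LinearMap.ext
  intro v
  have h1 : v ∈ K ⊔ L := by rw [hKL]; trivial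
  obtain ⟨a, ha, b, hb, rfl⟩ := Submodule.mem_sup.1 h1
  have h2 : (Y.restrict (hYK Y)) ⟨a, ha⟩ = 0 := by
    have := congrArg Prod.fst hY
    exact congrArg (fun T : Module.End R K => T ⟨a, ha⟩) this
  have h3 : (Y.restrict (hYL Y)) ⟨b, hb⟩ = 0 := by
    have := congrArg Prod.snd hY
    exact congrArg (fun T : Module.End R L => T ⟨b, hb⟩) this
  rw [map_add, LinearMap.zero_apply]
  have h4 : Y a = 0 := congrArg Subtype.val h2
  have h5 : Y b = 0 := congrArg Subtype.val h3
  rw [h4, h5, add_zero]

variable [CharZero F] (g : R)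

/-- the decomposition given by a noninjective nonzero element of the commutant -/
theorem split (M : Type) [AddCommGroup M] [Module F M]
    [Module R M] [IsScalarTower F R M] [FiniteDimensional F M] (hs : (ac F g M).charpoly.Separable)
    (X : Module.End R M) (hX0 : X ≠ 0) (hXinj : ¬ Function.Injective X) :
    ∃ K L : Submodule R M, K ⊔ L = ⊤ ∧ finrank F K + finrank F L = finrank F M ∧
      0 < finrank F K ∧ 0 < finrank F L ∧
      (∀ (Y : Module.End R M), ∀ v ∈ K, Y v ∈ K) ∧ (∀ (Y : Module.End R M), ∀ v ∈ L, Y v ∈ L) := by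
  obtain ⟨p, hp⟩ := comm_poly' (ac F g M) (X.restrictScalars F) hs (by
    apply LinearMap.ext
    intro v
    exact X.map_smul g v)
  have hXa : ∀ v, X v = aeval (ac F g M) p v := by
    intro v
    rw [← hp]
    rfl
  have hXp : ∀ v, X v = (aeval g p) • v := by
    intro v
    rw [← ac_aeval, hXa]
  have hcomm : ∀ (Y : Module.End R M) (v : M), X (Y v) = Y (X v) := by
    intro Y v
    rw [hXp, hXp, map_smul]
  have hdisj : ∀ v, X (X v) = 0 → X v = 0 := by
    intro v hv
    rw [hXa] at hv ⊢
    rw [hXa] at hv
    exact sq_ker (ac F g M) hs p v hv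
  have hdisjKL : Disjoint (LinearMap.ker X) (LinearMap.range X) := by
    rw [Submodule.disjoint_def]
    rintro _ h1 ⟨v, rfl⟩
    exact hdisj v h1
  have hrank : finrank F (LinearMap.ker X) + finrank F (LinearMap.range X) = finrank F M := by
    have h1 := LinearMap.finrank_range_add_finrank_ker (X.restrictScalars F)
    rw [add_comm]
    exact h1
  refine ⟨LinearMap.ker X, LinearMap.range X, sup_eq M _ _ hdisjKL hrank.ge, hrank, ?_, ?_, ?_, ?_⟩
  · rw [Module.finrank_pos_iff]
    by_contra hno
    rw [not_nontrivial_iff_subsingleton] at hno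
    apply hXinj
    rw [← LinearMap.ker_eq_bot]
    exact Submodule.eq_bot_of_subsingleton
  · rw [Module.finrank_pos_iff]
    by_contra hno
    rw [not_nontrivial_iff_subsingleton] at hno
    apply hX0
    rw [← LinearMap.range_eq_bot]
    exact Submodule.eq_bot_of_subsingleton
  · intro Y v hv
    rw [LinearMap.mem_ker] at hv ⊢
    rw [hcomm, hv, map_zero]
  · rintro Y _ ⟨v, rfl⟩
    exact ⟨Y v, hcomm Y v⟩

theorem main (D f : ℕ) (hD : 0 < D) (hf : 0 < f) : ∀ n : ℕ, ∀ (M : Type) [AddCommGroup M] [Module F M]
    [Module R M] [IsScalarTower F R M] [FiniteDimensional F M], finrank F M = n → Hyp F g D f M →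
    D * finrank F (Module.End R M) ≤ n * f ∧
      (D * finrank F (Module.End R M) = n * f → IsSemisimpleModule R M) := by
  intro n
  induction n using Nat.strong_induction_on with
  | _ n ih =>
  intro M _ _ _ _ _ hn hyp
  by_cases hc : ∀ X : Module.End R M, X ≠ 0 → Function.Injective X
  · exact case1 g D f n hD hf M hn hyp hc
  · push Not at hc
    obtain ⟨X, hX0, hXinj⟩ := hc
    obtain ⟨K, L, hKL, hrank, hKpos, hLpos, hYK, hYL⟩ := split g M hyp.sep X hX0 hXinj
    obtain ⟨hK1, hK2⟩ := ih (finrank F K) (by omega) K rfl (hyp.sub K)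
    obtain ⟨hL1, hL2⟩ := ih (finrank F L) (by omega) L rfl (hyp.sub L)
    have hcle := end_add M K L hKL hYK hYL (F := F)
    have hmul : D * finrank F (Module.End R M) ≤
        D * finrank F (Module.End R K) + D * finrank F (Module.End R L) := by
      rw [← mul_add]
      exact Nat.mul_le_mul_left _ hcle
    have hsum : n * f = finrank F K * f + finrank F L * f := by
      rw [← add_mul, hrank, hn]
    refine ⟨by omega, fun heq => ?_⟩
    have h1 := hK2 (by omega)
    have h2 := hL2 (by omega)
    apply isSemisimpleModule_of_isSemisimpleModule_submodule' (p := fun b : Bool => if b then K else L)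
    · intro b
      cases b
      · exact h2
      · exact h1
    · rw [iSup_bool_eq]
      exact hKL

end mod

end Pool.Agent.Y412.SI
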