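import Pool.Agent.Y142.SI.Stm
import Pool.Agent.Y614.ZD.Badd
import Pool.Agent.Y412.SI.Ende3

set_option autoImplicit false

/-! Project Y142-SI, task ENDE: the dimension of the commutant of a representation with a regular element. -/

open Matrix Polynomial Module
open Pool.Agent.Y142.ZO Pool.Agent.Y142.ZI Pool.Agent.Y142.SI
open Pool.Agent.Y142.ZD (DistPow)

namespace Pool.Agent.Y412.SI

theorem aeval_pow_eq {F V : Type} [Field F] [AddCommGroup V] [Module F V] [FiniteDimensional F V]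
    (f : Module.End F V) (k : ℕ) (P : F[X]) (hP : f.charpoly ∣ P.comp (X ^ k) - X) :
    aeval (f ^ k) P = f := by
  obtain ⟨R, hR⟩ := hP
  have h2 : aeval f (P.comp (X ^ k) - X) = 0 := by
    rw [hR, map_mul, LinearMap.aeval_self_charpoly, zero_mul]
  rw [map_sub, aeval_X, Polynomial.aeval_comp, map_pow, aeval_X, sub_eq_zero] at h2
  exact h2

/-- the general statement for a set of operators -/
theorem ops {F V : Type} [Field F] [CharZero F] [AddCommGroup V] [Module F V] [FiniteDimensional F V]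
    (S : Set (Module.End F V)) (g : Module.End F V) (hg : g ∈ Algebra.adjoin F S) (D f : ℕ) (hD : 0 < D)
    (hf : 0 < f)
    (hdvd : ∀ W : Submodule F V, (∀ s ∈ S, ∀ w ∈ W, s w ∈ W) → D ∣ finrank F W)
    (hsep : g.charpoly.Separable)
    (hfac : ∀ Q : F[X], Q.Monic → Q ∣ g.charpoly → Q ≠ 1 → D ∣ Q.natDegree →
      ∃ Q₁ : F[X], Irreducible Q₁ ∧ Q₁ ∣ Q ∧ Q₁.natDegree ≤ f)
    (C : Submodule F (Module.End F V)) (hC : ∀ X ∈ C, ∀ s ∈ S, X * s = s * X) :
    D * finrank F C ≤ finrank F V * f ∧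
      (D * finrank F C = finrank F V * f →
        ∀ W : Submodule F V, (∀ s ∈ S, ∀ w ∈ W, s w ∈ W) →
          ∃ W' : Submodule F V, (∀ s ∈ S, ∀ w ∈ W', s w ∈ W') ∧ IsCompl W W') := by
  set R := Algebra.adjoin F S with hR
  have hmem : ∀ s ∈ S, s ∈ R := fun s hs => Algebra.subset_adjoin hs
  have hac : ac F (⟨g, hg⟩ : R) V = g := rfl
  have hyp : Hyp F (⟨g, hg⟩ : R) D f V := by
    refine ⟨fun W => ?_, ?_, ?_⟩
    · exact hdvd (W.restrictScalars F) (fun s hs w hw => W.smul_mem (⟨s, hmem s hs⟩ : R) hw)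
    · rw [hac]; exact hsep
    · rw [hac]; exact hfac
  obtain ⟨h1, h2⟩ := main (⟨g, hg⟩ : R) D f hD hf (finrank F V) V rfl hyp
  -- the commutant
  have hXR : ∀ X ∈ C, ∀ r ∈ R, X * r = r * X := by
    intro X hX r hr
    induction hr using Algebra.adjoin_induction with
    | mem s hs => exact hC X hX s hs
    | algebraMap c => exact (Algebra.commutes c X).symm
    | add a b _ _ ha hb => rw [mul_add, add_mul, ha, hb]
    | mul a b _ _ ha hb => rw [← mul_assoc, ha, mul_assoc, hb, mul_assoc]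
  have hle : finrank F C ≤ finrank F (Module.End R V) := by
    let r : C →ₗ[F] Module.End R V :=
      { toFun := fun X =>
          { toFun := fun v => (X : Module.End F V) v
            map_add' := fun a b => map_add _ a b
            map_smul' := fun a b => by
              have := hXR X X.2 a a.2
              exact congrArg (fun T : Module.End F V => T b) this }
        map_add' := fun _ _ => rfl
        map_smul' := fun _ _ => rfl }
    have hfin : Module.Finite F (Module.End R V) := fin_end V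
    apply LinearMap.finrank_le_finrank_of_injective (f := r)
    intro X Y h
    apply Subtype.ext
    apply LinearMap.ext
    intro v
    exact congrArg (fun T : Module.End R V => T v) h
  have hle' : D * finrank F C ≤ D * finrank F (Module.End R V) := Nat.mul_le_mul_left _ hle
  refine ⟨hle'.trans h1, fun heq W hW => ?_⟩
  have hss : IsSemisimpleModule R V := h2 (le_antisymm h1 (heq ▸ hle'))
  have hWR : ∀ r ∈ R, ∀ w ∈ W, r w ∈ W := by
    intro r hr
    induction hr using Algebra.adjoin_induction with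
    | mem s hs => exact hW s hs
    | algebraMap c => exact fun w hw => W.smul_mem c hw
    | add a b _ _ ha hb => exact fun w hw => W.add_mem (ha w hw) (hb w hw)
    | mul a b _ _ ha hb => exact fun w hw => ha _ (hb w hw)
  let WR : Submodule R V :=
    { carrier := W
      add_mem' := fun ha hb => W.add_mem ha hb
      zero_mem' := W.zero_mem
      smul_mem' := fun r w hw => hWR r r.2 w hw }
  obtain ⟨W', hW'⟩ := exists_isCompl WR
  refine ⟨W'.restrictScalars F, fun s hs w hw => W'.smul_mem (⟨s, hmem s hs⟩ : R) hw, ?_⟩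
  constructor
  · rw [Submodule.disjoint_def]
    intro v hv hv'
    exact (Submodule.disjoint_def.1 hW'.disjoint) v hv hv'
  · rw [codisjoint_iff, eq_top_iff]
    intro v _
    have h3 : v ∈ WR ⊔ W' := by rw [hW'.sup_eq_top]; trivial
    obtain ⟨a, ha, b, hb, rfl⟩ := Submodule.mem_sup.1 h3
    exact Submodule.mem_sup.2 ⟨a, ha, b, hb, rfl⟩

/-- task ENDE -/
theorem t : S_ENDE := by
  intro ℓ _ N G _ _ _ _ ρ U hU D f hD hf hdvd σ hsep hdist hfac
  set g : Module.End ℚ_[ℓ] (Fin N → ℚ_[ℓ]) := toLin' (ρ σ) with hg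
  have hgc : g.charpoly = (ρ σ).charpoly := by
    rw [hg, Matrix.charpoly_toLin']
  obtain ⟨k, hk, hkU⟩ : ∃ k : ℕ, 0 < k ∧ σ ^ k ∈ U := by
    have : Finite (G ⧸ U) := U.quotient_finite_of_isOpen hU
    have hidx : U.index ≠ 0 := Subgroup.index_ne_zero_of_finite
    obtain ⟨n, hn, _, hmem⟩ := Subgroup.exists_pow_mem_of_index_ne_zero hidx σ
    exact ⟨n, hn, hmem⟩
  obtain ⟨P, hP⟩ := Pool.Agent.Y614.ZD.exists_poly_sep _ (Matrix.charpoly_monic (ρ σ)) hsep k
    (fun x y hx hy hxy => hdist k x y hk hx hy hxy)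
  rw [← hgc] at hP
  have hgP := aeval_pow_eq g k P hP
  set S : Set (Module.End ℚ_[ℓ] (Fin N → ℚ_[ℓ])) := (fun τ => toLin' (ρ τ)) '' (U : Set G) with hS
  have hgS : g ∈ Algebra.adjoin ℚ_[ℓ] S := by
    rw [← hgP]
    have h1 : g ^ k ∈ Algebra.adjoin ℚ_[ℓ] S := by
      apply Algebra.subset_adjoin
      refine ⟨σ ^ k, hkU, ?_⟩
      simp only
      rw [map_pow, hg, toLin'_pow]
    have h2 : aeval (g ^ k) P = ((aeval (⟨g ^ k, h1⟩ : Algebra.adjoin ℚ_[ℓ] S) P :
        Algebra.adjoin ℚ_[ℓ] S) : Module.End ℚ_[ℓ] (Fin N → ℚ_[ℓ])) :=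
      (Polynomial.aeval_algHom_apply (Algebra.adjoin ℚ_[ℓ] S).val ⟨g ^ k, h1⟩ P)
    rw [h2]
    exact Subtype.property _
  let e := (Matrix.toLin' (R := ℚ_[ℓ]) (m := Fin N) (n := Fin N))
  have hN : finrank ℚ_[ℓ] (Fin N → ℚ_[ℓ]) = N := Module.finrank_fin_fun _
  obtain ⟨h1, h2⟩ := ops S g hgS D f hD hf
    (fun W hW => hdvd W (fun τ hτ w hw => hW _ ⟨τ, hτ, rfl⟩ w hw))
    (by rw [hgc]; exact hsep) (by rw [hgc]; exact hfac)
    ((Comm ρ U).map e.toLinearMap) (by
      rintro _ ⟨X, hX, rfl⟩ _ ⟨τ, hτ, rfl⟩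
      change toLin' X * toLin' (ρ τ) = toLin' (ρ τ) * toLin' X
      have h3 : X * ρ τ = ρ τ * X := hX τ hτ
      have h4 := congrArg toLin' h3
      rw [toLin'_mul, toLin'_mul] at h4
      exact h4)
  have h3 : finrank ℚ_[ℓ] ((Comm ρ U).map e.toLinearMap) = finrank ℚ_[ℓ] (Comm ρ U) :=
    LinearEquiv.finrank_map_eq e _
  rw [hN, h3] at h1 h2
  refine ⟨h1, fun heq W hW => ?_⟩
  obtain ⟨W', hW', hc⟩ := h2 heq W (by
    rintro _ ⟨τ, hτ, rfl⟩ w hw
    exact hW τ hτ w hw)
  exact ⟨W', fun τ hτ w hw => hW' _ ⟨τ, hτ, rfl⟩ w hw, hc⟩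

end Pool.Agent.Y412.SI
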