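import Pool.Agent.Y142.SI.Stm
import Pool.Agent.Y614.ZD.Badd
import Pool.Agent.W475.MF.Comm

set_option autoImplicit false

/-! Project Y142-SI, task ENDE: the dimension of the commutant of a representation with a regular element. -/

open Polynomial Module

namespace Pool.Agent.Y412.SI

section lin
variable {F : Type} [Field F] [CharZero F] {V : Type} [AddCommGroup V] [Module F V] [FiniteDimensional F V]

theorem charpoly_dvd' (φ : Module.End F V) (hs : φ.charpoly.Separable) (q : F[X]) (hq : aeval φ q = 0) :
    φ.charpoly ∣ q := by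
  classical
  let b := Module.finBasis F V
  have h1 : (LinearMap.toMatrix b b φ).charpoly = φ.charpoly := LinearMap.charpoly_toMatrix φ b
  rw [← h1]
  apply Pool.Agent.W475.MF.charpoly_dvd
  · rw [h1]; exact hs.squarefree
  · have h2 : aeval (LinearMap.toMatrixAlgEquiv b φ) q = LinearMap.toMatrixAlgEquiv b (aeval φ q) := by
      rw [← Polynomial.aeval_algHom_apply]
    have h3 : LinearMap.toMatrix b b φ = LinearMap.toMatrixAlgEquiv b φ := rfl
    rw [h3, h2, hq, map_zero]

theorem comm_poly' (φ X : Module.End F V) (hs : φ.charpoly.Separable) (hc : X * φ = φ * X) :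
    ∃ q : F[X], X = aeval φ q := by
  classical
  rcases subsingleton_or_nontrivial V with hV | hV
  · exact ⟨0, Subsingleton.elim _ _⟩
  let b := Module.finBasis F V
  have hne : Nonempty (Fin (finrank F V)) := ⟨⟨0, finrank_pos⟩⟩
  have h1 : (LinearMap.toMatrixAlgEquiv b φ).charpoly = φ.charpoly := LinearMap.charpoly_toMatrix φ b
  obtain ⟨q, hq⟩ := Pool.Agent.W475.MF.comm_poly (LinearMap.toMatrixAlgEquiv b φ)
    (by rw [h1]; exact hs.squarefree) (LinearMap.toMatrixAlgEquiv b X)
    (by rw [← map_mul, hc, map_mul])
  refine ⟨q, (LinearMap.toMatrixAlgEquiv b).injective ?_⟩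
  rw [hq]
  exact (Polynomial.aeval_algHom_apply (LinearMap.toMatrixAlgEquiv b).toAlgHom φ q)

/-- characteristic polynomials on subspaces -/
theorem charpoly_dvd_inj {W : Type} [AddCommGroup W] [Module F W] [FiniteDimensional F W]
    (φ : Module.End F V) (ψ : Module.End F W) (i : W →ₗ[F] V) (hi : Function.Injective i)
    (h : ∀ w, φ (i w) = i (ψ w)) : ψ.charpoly ∣ φ.charpoly := by
  have hW : LinearMap.range i ≤ (LinearMap.range i).comap φ := by
    rintro _ ⟨w, rfl⟩
    exact ⟨ψ w, (h w).symm⟩
  have h1 := Pool.Agent.W522.C.charpoly_eq_mul φ (LinearMap.range i) hW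
  let e : W ≃ₗ[F] LinearMap.range i := LinearEquiv.ofInjective i hi
  have h2 : (e.conj ψ).charpoly = ψ.charpoly := LinearEquiv.charpoly_conj e ψ
  have h3 : e.conj ψ = φ.restrict hW := by
    apply LinearMap.ext
    intro x
    obtain ⟨w, rfl⟩ := e.surjective x
    apply Subtype.ext
    rw [LinearEquiv.conj_apply_apply, LinearEquiv.symm_apply_apply]
    exact (h w).symm
  rw [h1, ← h3, h2]
  exact dvd_mul_right _ _

end lin

section mod
variable {F R : Type} [Field F] [Ring R] [Algebra F R] (g : R)

/-- the endomorphism given by `g` -/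
abbrev ac (F : Type) {R : Type} [Field F] [Ring R] [Algebra F R] (g : R) (M : Type) [AddCommGroup M]
    [Module F M] [Module R M] [IsScalarTower F R M] : Module.End F M := Algebra.lsmul F F M g

theorem ac_aeval (M : Type) [AddCommGroup M] [Module F M] [Module R M] [IsScalarTower F R M]
    (p : F[X]) (v : M) : aeval (ac F g M) p v = (aeval g p) • v := by
  have h : aeval (Algebra.lsmul F F M g) p = Algebra.lsmul F F M (aeval g p) :=
    Polynomial.aeval_algHom_apply _ _ _
  have h2 := congrArg (fun T : Module.End F M => T v) h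
  exact h2

theorem fin_sub (M : Type) [AddCommGroup M] [Module F M] [Module R M] [IsScalarTower F R M]
    [FiniteDimensional F M] (K : Submodule R M) : Module.Finite F K :=
  Module.Finite.of_injective (K.subtype.restrictScalars F) K.injective_subtype

attribute [local instance] fin_sub

variable [CharZero F]

theorem sub_dvd (M : Type) [AddCommGroup M] [Module F M] [Module R M] [IsScalarTower F R M]
    [FiniteDimensional F M] (K : Submodule R M) :
    (ac F g K).charpoly ∣ (ac F g M).charpoly := by
  exact charpoly_dvd_inj (ac F g M) (ac F g K) (K.subtype.restrictScalars F) K.injective_subtype (fun w => rfl)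

/-- the hypotheses on a module -/
structure Hyp (F : Type) {R : Type} [Field F] [Ring R] [Algebra F R] (g : R) (D f : ℕ) (M : Type)
    [AddCommGroup M] [Module F M] [Module R M] [IsScalarTower F R M] [FiniteDimensional F M] : Prop where
  dvd : ∀ W : Submodule R M, D ∣ finrank F W
  sep : (ac F g M).charpoly.Separable
  fac : ∀ Q : F[X], Q.Monic → Q ∣ (ac F g M).charpoly → Q ≠ 1 → D ∣ Q.natDegree →
    ∃ Q₁ : F[X], Irreducible Q₁ ∧ Q₁ ∣ Q ∧ Q₁.natDegree ≤ f

theorem Hyp.sub {g : R} {D f : ℕ} {M : Type} [AddCommGroup M] [Module F M] [Module R M] [IsScalarTower F R M]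
    [FiniteDimensional F M] (h : Hyp F g D f M) (K : Submodule R M) : Hyp F g D f K where
  dvd := by
    intro W
    have h1 := h.dvd (W.map K.subtype)
    have h2 : finrank F W = finrank F (W.map K.subtype) :=
      ((Submodule.equivMapOfInjective K.subtype K.injective_subtype W).restrictScalars F).finrank_eq
    rw [h2]
    exact h1
  sep := h.sep.of_dvd (sub_dvd g M K)
  fac := fun Q hQ hd h1 hD => h.fac Q hQ (hd.trans (sub_dvd g M K)) h1 hD

end mod

end Pool.Agent.Y412.SI
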