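import Pool.Agent.Y412.SI.Ende0

set_option autoImplicit false

/-! Project Y142-SI, task ENDE: the two cases. -/

open Polynomial Module

namespace Pool.Agent.Y412.SI

section mod
variable {F R : Type} [Field F] [Ring R] [Algebra F R]

theorem fin_end (M : Type) [AddCommGroup M] [Module F M] [Module R M] [IsScalarTower F R M]
    [FiniteDimensional F M] : Module.Finite F (Module.End R M) := by
  let r : Module.End R M →ₗ[F] Module.End F M :=
    { toFun := fun X => X.restrictScalars F
      map_add' := fun _ _ => rfl
      map_smul' := fun _ _ => rfl }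
  apply Module.Finite.of_injective r
  intro X Y h
  apply LinearMap.ext
  intro v
  exact congrArg (fun T : Module.End F M => T v) h

attribute [local instance] fin_sub

variable [CharZero F]

theorem restrict_aeval {V : Type} [AddCommGroup V] [Module F V] (φ : Module.End F V) (W : Submodule F V)
    (hWs : ∀ x ∈ W, φ x ∈ W) (p : F[X]) : ∀ (w : W), ((aeval (φ.restrict hWs) p w : W) : V) =
      aeval φ p (w : V) := by
  induction p using Polynomial.induction_on' with
  | add p q hp hq =>
    intro w
    rw [map_add, map_add, LinearMap.add_apply, LinearMap.add_apply, Submodule.coe_add, hp, hq]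
  | monomial k a =>
    intro w
    rw [aeval_monomial, aeval_monomial, ← Algebra.smul_def, ← Algebra.smul_def,
      LinearMap.smul_apply, LinearMap.smul_apply, Submodule.coe_smul]
    congr 1
    induction k generalizing w with
    | zero => rfl
    | succ k ihk =>
      rw [pow_succ, pow_succ]
      change (((φ.restrict hWs) ^ k) ((φ.restrict hWs) w) : W).1 = (φ ^ k) (φ w)
      rw [ihk]
      rfl

/-- kernel of an irreducible factor -/
theorem ker_factor {V : Type} [AddCommGroup V] [Module F V] [FiniteDimensional F V] (φ : Module.End F V)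
    (hs : φ.charpoly.Separable) (Q : F[X]) (hQi : Irreducible Q) (hQd : Q ∣ φ.charpoly) :
    (∃ w : V, w ≠ 0 ∧ aeval φ Q w = 0) ∧ finrank F (LinearMap.ker (aeval φ Q)) ≤ Q.natDegree := by
  have hQ0 : Q ≠ 0 := hQi.ne_zero
  constructor
  · by_contra hno
    push Not at hno
    have hinj : Function.Injective (aeval φ Q) := by
      rw [injective_iff_map_eq_zero]
      intro a ha
      by_contra hne
      exact hno a hne ha
    obtain ⟨B, hB⟩ := hQd
    have h1 : aeval φ B = 0 := by
      apply LinearMap.ext
      intro v
      apply hinj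
      rw [LinearMap.zero_apply, map_zero]
      have h2 := LinearMap.aeval_self_charpoly φ
      rw [hB, map_mul] at h2
      exact congrArg (fun T : Module.End F V => T v) h2
    have h3 := charpoly_dvd' φ hs B h1
    have hB0 : B ≠ 0 := by
      rintro rfl
      rw [mul_zero] at hB
      exact (LinearMap.charpoly_monic φ).ne_zero hB
    have h4 := natDegree_le_of_dvd h3 hB0
    rw [hB, natDegree_mul hQ0 hB0] at h4
    have h5 := hQi.natDegree_pos
    omega
  · set W := LinearMap.ker (aeval φ Q) with hW
    have hWs : ∀ x ∈ W, φ x ∈ W := by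
      intro w hw
      rw [hW, LinearMap.mem_ker] at *
      have h1 : aeval φ Q * φ = φ * aeval φ Q := by
        have h2 : aeval φ (Q * X) = aeval φ (X * Q) := by rw [mul_comm]
        rwa [map_mul, map_mul, aeval_X] at h2
      have h2 := congrArg (fun T : Module.End F V => T w) h1
      change aeval φ Q (φ w) = φ (aeval φ Q w) at h2
      rw [h2, hw, map_zero]
    have h1 : (φ.restrict hWs).charpoly ∣ φ.charpoly :=
      charpoly_dvd_inj _ _ W.subtype W.injective_subtype (fun w => rfl)
    have h2 : aeval (φ.restrict hWs) Q = 0 := by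
      apply LinearMap.ext
      intro w
      apply Subtype.ext
      rw [LinearMap.zero_apply, ZeroMemClass.coe_zero, restrict_aeval]
      exact w.2
    have h3 := charpoly_dvd' _ (hs.of_dvd h1) Q h2
    have h4 := natDegree_le_of_dvd h3 hQ0
    rwa [LinearMap.charpoly_natDegree] at h4

/-- polynomials in an endomorphism with separable characteristic polynomial are semisimple -/
theorem sq_ker {V : Type} [AddCommGroup V] [Module F V] [FiniteDimensional F V] (φ : Module.End F V)
    (hs : φ.charpoly.Separable) (p : F[X]) (v : V) (hv : aeval φ p (aeval φ p v) = 0) :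
    aeval φ p v = 0 := by
  classical
  have hv2 : aeval φ (p ^ 2) v = 0 := by
    rw [map_pow, pow_two]
    exact hv
  have hd : EuclideanDomain.gcd (p ^ 2) φ.charpoly ∣ p := by
    have h1 : Squarefree (EuclideanDomain.gcd (p ^ 2) φ.charpoly) :=
      hs.squarefree.squarefree_of_dvd (EuclideanDomain.gcd_dvd_right _ _)
    exact (h1.dvd_pow_iff_dvd two_ne_zero).1 (EuclideanDomain.gcd_dvd_left _ _)
  obtain ⟨c, hc⟩ := hd
  rw [EuclideanDomain.gcd_eq_gcd_ab] at hc
  have h2 : p = c * (EuclideanDomain.gcdA (p ^ 2) φ.charpoly * p ^ 2 +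
      EuclideanDomain.gcdB (p ^ 2) φ.charpoly * φ.charpoly) := by
    conv_lhs => rw [hc]
    ring
  have h3 : aeval φ p = aeval φ (c * (EuclideanDomain.gcdA (p ^ 2) φ.charpoly * p ^ 2 +
      EuclideanDomain.gcdB (p ^ 2) φ.charpoly * φ.charpoly)) := congrArg _ h2
  rw [h3, map_mul, map_add, map_mul, map_mul, LinearMap.aeval_self_charpoly, mul_zero, add_zero]
  change aeval φ c (aeval φ (EuclideanDomain.gcdA (p ^ 2) φ.charpoly) (aeval φ (p ^ 2) v)) = 0
  rw [hv2, map_zero, map_zero]

end mod

end Pool.Agent.Y412.SI
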