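import Pool.Agent.Y412.SI.Ende1

set_option autoImplicit false

/-! Project Y142-SI, task ENDE: the case of a division algebra. -/

open Polynomial Module

namespace Pool.Agent.Y412.SI

section mod
variable {F R : Type} [Field F] [CharZero F] [Ring R] [Algebra F R] (g : R)

attribute [local instance] fin_sub fin_end

theorem end_le (D f : ℕ) (hD : 0 < D) (M : Type) [AddCommGroup M] [Module F M]
    [Module R M] [IsScalarTower F R M] [FiniteDimensional F M] [Nontrivial M] (hyp : Hyp F g D f M)
    (hc : ∀ X : Module.End R M, X ≠ 0 → Function.Injective X) :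
    D ≤ finrank F M ∧ finrank F (Module.End R M) ≤ f := by
  have hpos : 0 < finrank F M := finrank_pos
  have hDn : D ∣ finrank F M := by
    have h1 := hyp.dvd ⊤
    have h2 : finrank F (⊤ : Submodule R M) = finrank F M :=
      ((Submodule.topEquiv (R := R) (M := M)).restrictScalars F).finrank_eq
    rwa [h2] at h1
  refine ⟨Nat.le_of_dvd hpos hDn, ?_⟩
  have hcd : (ac F g M).charpoly.natDegree = finrank F M := LinearMap.charpoly_natDegree _
  obtain ⟨Q, hQi, hQd, hQf⟩ := hyp.fac (ac F g M).charpoly (LinearMap.charpoly_monic _) dvd_rfl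
    (by
      intro h1
      rw [h1, natDegree_one] at hcd
      omega) (by rw [hcd]; exact hDn)
  obtain ⟨⟨w, hw0, hww⟩, hWd⟩ := ker_factor (ac F g M) hyp.sep Q hQi hQd
  refine le_trans ?_ (hWd.trans hQf)
  let ev : Module.End R M →ₗ[F] LinearMap.ker (aeval (ac F g M) Q) :=
    { toFun := fun X => ⟨X w, by
        rw [LinearMap.mem_ker, ac_aeval, ← map_smul, ← ac_aeval, hww, map_zero]⟩
      map_add' := fun _ _ => rfl
      map_smul' := fun _ _ => rfl }
  apply LinearMap.finrank_le_finrank_of_injective (f := ev)
  rw [injective_iff_map_eq_zero]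
  intro X hX
  by_contra hne
  apply hw0
  apply hc X hne
  rw [map_zero]
  exact congrArg Subtype.val hX

theorem simple_of (D : ℕ) (M : Type) [AddCommGroup M] [Module F M]
    [Module R M] [IsScalarTower F R M] [FiniteDimensional F M] (hn : finrank F M = D)
    (hd : ∀ W : Submodule R M, D ∣ finrank F W) : IsSemisimpleModule R M := by
  have hsimple : ∀ W : Submodule R M, W = ⊥ ∨ W = ⊤ := by
    intro W
    obtain ⟨c, hcW⟩ := hd W
    have hle : finrank F W ≤ finrank F M :=
      LinearMap.finrank_le_finrank_of_injective (f := W.subtype.restrictScalars F) W.injective_subtype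
    rcases Nat.eq_zero_or_pos c with rfl | hcpos
    · left
      rw [mul_zero] at hcW
      have h2 : Subsingleton W := finrank_zero_iff.1 hcW
      exact Submodule.eq_bot_of_subsingleton
    · right
      have h1 : finrank F W = finrank F M := by
        apply le_antisymm hle
        rw [hcW, hn]
        exact Nat.le_mul_of_pos_right D hcpos
      have h2 : W.restrictScalars F = ⊤ := Submodule.eq_top_of_finrank_eq h1
      rw [Submodule.restrictScalars_eq_top_iff] at h2
      exact h2
  rw [isSemisimpleModule_iff]
  refine ⟨fun W => ?_⟩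
  rcases hsimple W with rfl | rfl
  · exact ⟨⊤, isCompl_bot_top⟩
  · exact ⟨⊥, isCompl_top_bot⟩

theorem case1 (D f n : ℕ) (hD : 0 < D) (hf : 0 < f) (M : Type) [AddCommGroup M] [Module F M]
    [Module R M] [IsScalarTower F R M] [FiniteDimensional F M] (hn : finrank F M = n)
    (hyp : Hyp F g D f M) (hc : ∀ X : Module.End R M, X ≠ 0 → Function.Injective X) :
    D * finrank F (Module.End R M) ≤ n * f ∧
      (D * finrank F (Module.End R M) = n * f → IsSemisimpleModule R M) := by
  rcases subsingleton_or_nontrivial M with hM | hM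
  · have h0 : finrank F (Module.End R M) = 0 := finrank_zero_of_subsingleton
    rw [h0, mul_zero]
    refine ⟨Nat.zero_le _, fun _ => ?_⟩
    rw [isSemisimpleModule_iff]
    refine ⟨fun W => ⟨⊤, ?_⟩⟩
    have hW : W = ⊥ := Submodule.eq_bot_of_subsingleton
    rw [hW]
    exact isCompl_bot_top
  · obtain ⟨hDle, hcf⟩ := end_le g D f hD M hyp hc
    rw [hn] at hDle
    refine ⟨Nat.mul_le_mul hDle hcf, fun heq => ?_⟩
    have hDn' : n = D := by
      by_contra hne
      have hlt : D < n := lt_of_le_of_ne hDle (Ne.symm hne)
      have h1 : D * finrank F (Module.End R M) ≤ D * f := Nat.mul_le_mul_left _ hcf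
      have h2 : D * f < n * f := Nat.mul_lt_mul_of_pos_right hlt hf
      omega
    exact simple_of D M (hn.trans hDn') hyp.dvd

end mod

end Pool.Agent.Y412.SI
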